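import Pool.Agent.Helper324_QNR.Main

/-!
# The Crouzeix-type bound for scaled `q`-numerical ranges

For every complex `n × n` matrix `A`, every complex `q` with `0 < |q| ≤ 1` and every complex
polynomial `p`, `‖p(A)‖ ≤ c(q) · sup {|p(z)| : z ∈ W_q(A)/q}`, with
`c(q) = max(1, 2|q| / (1 + √(1 - |q|²)))`. (For `n = 1` and `|q| < 1` the set `W_q(A)` is empty, so
that degenerate case is left out.)

The proof reduces the bound to the case `q = 1`, the inequality `‖p(B)‖ ≤ 2 sup_{W(B)} |p|`, which is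
`Pool.Agent.W753.CZ.crouzeix_bound`. With `κ = (1 + √(1-|q|²))/|q|`, the numerical range of
`S⁻¹ A S` stays inside the region where `|p| ≤ sup_{Ω_q} |p|` whenever `S = κ` on a line and `1` on its
orthogonal complement, and the maximising vectors of an extremal `p(A)` are orthogonal, so that
`‖p(A)‖` gains the factor `κ` in passing to `S⁻¹ A S`.
-/

set_option autoImplicit false

open Polynomial

namespace Pool.Agent.Results.MP_16d611_an.ScaledRangeBound

/-- The `q`-numerical range `W_q(A) = {⟨Ax, y⟩ : ‖x‖ = ‖y‖ = 1, ⟨x, y⟩ = q}`, where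
`⟨x, y⟩ = ∑ i, x i * conj (y i)` is `dotProduct x (star y)`. -/
def qRange {n : ℕ} (q : ℂ) (A : Matrix (Fin n) (Fin n) ℂ) : Set ℂ :=
  {w | ∃ x y : Fin n → ℂ, dotProduct x (star x) = 1 ∧ dotProduct y (star y) = 1 ∧
    dotProduct x (star y) = q ∧ w = dotProduct (A.mulVec x) (star y)}

/-- The scaled `q`-numerical range `Ω_q = W_q(A) / q`. -/
def scaledRange {n : ℕ} (q : ℂ) (A : Matrix (Fin n) (Fin n) ℂ) : Set ℂ :=
  {z | ∃ w ∈ qRange q A, z = w / q}

/-- The constant `c(q) = max(1, 2|q| / (1 + √(1 - |q|²)))`. -/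
noncomputable def cq (q : ℂ) : ℝ := max 1 (2 * ‖q‖ / (1 + Real.sqrt (1 - ‖q‖ ^ 2)))

section aux

variable {n : ℕ}

theorem inner_eq (u v : Fin n → ℂ) :
    inner ℂ (WithLp.toLp 2 v : EuclideanSpace ℂ (Fin n)) (WithLp.toLp 2 u) =
      dotProduct u (star v) := by
  rw [EuclideanSpace.inner_eq_star_dotProduct]

theorem norm_eq_one_iff' (v : Fin n → ℂ) :
    ‖(WithLp.toLp 2 v : EuclideanSpace ℂ (Fin n))‖ = 1 ↔ dotProduct v (star v) = 1 := by
  rw [← inner_eq, inner_self_eq_norm_sq_to_K]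
  constructor
  · intro h; rw [h]; simp
  · intro h
    have h2 : ‖(WithLp.toLp 2 v : EuclideanSpace ℂ (Fin n))‖ ^ 2 = 1 := by
      have h3 : ((‖(WithLp.toLp 2 v : EuclideanSpace ℂ (Fin n))‖ ^ 2 : ℝ) : ℂ) = ((1 : ℝ) : ℂ) := by
        push_cast
        exact h
      exact_mod_cast h3
    have h4 := norm_nonneg (WithLp.toLp 2 v : EuclideanSpace ℂ (Fin n))
    nlinarith

/-- The matrix form of the scaled range is the operator form. -/
theorem scaledRange_eq (q : ℂ) (A : Matrix (Fin n) (Fin n) ℂ) :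
    scaledRange q A =
      Pool.Agent.Helper324_QNR.Om (Matrix.toEuclideanCLM (n := Fin n) (𝕜 := ℂ) A) q := by
  ext z
  constructor
  · rintro ⟨w, ⟨x, y, hx, hy, hxy, rfl⟩, rfl⟩
    refine ⟨WithLp.toLp 2 x, WithLp.toLp 2 y, (norm_eq_one_iff' x).mpr hx,
      (norm_eq_one_iff' y).mpr hy, ?_, ?_⟩
    · rw [inner_eq]; exact hxy
    · have : (Matrix.toEuclideanCLM (n := Fin n) (𝕜 := ℂ) A) (WithLp.toLp 2 x) =
          WithLp.toLp 2 (A.mulVec x) := rfl
      rw [this, inner_eq]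
  · rintro ⟨x, y, hx, hy, hxy, rfl⟩
    refine ⟨inner ℂ y ((Matrix.toEuclideanCLM (n := Fin n) (𝕜 := ℂ) A) x),
      ⟨WithLp.ofLp x, WithLp.ofLp y, (norm_eq_one_iff' _).mp hx, (norm_eq_one_iff' _).mp hy, ?_, ?_⟩,
      rfl⟩
    · rw [← inner_eq]; exact hxy
    · rw [← inner_eq]; rfl

theorem exists_orth (hn : 2 ≤ n) (x : EuclideanSpace ℂ (Fin n)) :
    ∃ w : EuclideanSpace ℂ (Fin n), ‖w‖ = 1 ∧ inner ℂ x w = 0 := by
  have h1 : (Submodule.span ℂ {x})ᗮ ≠ ⊥ := by
    intro h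
    have h2 := Submodule.finrank_add_finrank_orthogonal (Submodule.span ℂ {x})
    rw [h, finrank_bot, add_zero, finrank_euclideanSpace_fin] at h2
    have h3 := finrank_span_le_card (R := ℂ) ({x} : Set (EuclideanSpace ℂ (Fin n)))
    simp at h3
    omega
  obtain ⟨v, hv, hv0⟩ := Submodule.exists_mem_ne_zero_of_ne_bot h1
  have hvn : ‖v‖ ≠ 0 := norm_ne_zero_iff.mpr hv0
  refine ⟨((‖v‖ : ℝ) : ℂ)⁻¹ • v, ?_, ?_⟩
  · rw [norm_smul, norm_inv, Complex.norm_real, norm_norm, inv_mul_cancel₀ hvn]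
  · rw [inner_smul_right]
    have : inner ℂ x v = 0 :=
      (Submodule.mem_orthogonal _ _).mp hv x (Submodule.mem_span_singleton_self x)
    rw [this, mul_zero]

end aux

open scoped Matrix.Norms.L2Operator in
/-- **Full answer to Q1 (affirmative).** Here `‖aeval A p‖` is the operator norm of `p(A)` induced by the
Euclidean norm; the second and third clauses say that the supremum is that of a nonempty set
which is bounded above. -/
theorem result (n : ℕ) (A : Matrix (Fin n) (Fin n) ℂ) (q : ℂ) (hq0 : 0 < ‖q‖) (hq1 : ‖q‖ ≤ 1)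
    (hn : 2 ≤ n ∨ (n = 1 ∧ ‖q‖ = 1)) (p : ℂ[X]) :
    ‖aeval A p‖ ≤ cq q * sSup ((fun z => ‖p.eval z‖) '' scaledRange q A) ∧
      (scaledRange q A).Nonempty ∧ BddAbove ((fun z => ‖p.eval z‖) '' scaledRange q A) := by
  set φ := Matrix.toEuclideanCLM (n := Fin n) (𝕜 := ℂ) with hφ
  have hn1 : 0 < n := by omega
  have hqne : q ≠ 0 := norm_pos_iff.mp hq0
  have hd : ‖q‖ = 1 ∨ ∀ x : EuclideanSpace ℂ (Fin n), ∃ w : EuclideanSpace ℂ (Fin n),
      ‖w‖ = 1 ∧ inner ℂ x w = 0 := by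
    rcases hn with h | h
    · exact Or.inr (exists_orth h)
    · exact Or.inl h.2
  have hne : (scaledRange q A).Nonempty := by
    rw [scaledRange_eq]
    haveI : NeZero n := ⟨hn1.ne'⟩
    obtain ⟨x, hx⟩ : ∃ x : EuclideanSpace ℂ (Fin n), ‖x‖ = 1 := exists_norm_eq _ zero_le_one
    set s := Real.sqrt (1 - ‖q‖ ^ 2) with hs
    have hs2 : s ^ 2 = 1 - ‖q‖ ^ 2 := Real.sq_sqrt (by nlinarith)
    obtain ⟨v, hv, hvn⟩ : ∃ v : EuclideanSpace ℂ (Fin n), inner ℂ x v = 0 ∧ ‖v‖ = s := by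
      rcases hd with h | h
      · refine ⟨0, inner_zero_right _, ?_⟩
        rw [norm_zero]
        have : s ^ 2 = 0 := by rw [hs2, h]; norm_num
        exact (pow_eq_zero_iff two_ne_zero |>.mp this).symm
      · obtain ⟨w, hw1, hw2⟩ := h x
        refine ⟨(s : ℂ) • w, by rw [inner_smul_right, hw2, mul_zero], ?_⟩
        rw [norm_smul, hw1, mul_one, Complex.norm_real, Real.norm_of_nonneg (Real.sqrt_nonneg _)]
    refine ⟨_, x, (starRingEnd ℂ) q • x + v, hx, ?_, ?_, rfl⟩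
    · have h1 : ‖(starRingEnd ℂ) q • x + v‖ ^ 2 = 1 := by
        rw [norm_add_sq (𝕜 := ℂ), inner_smul_left, hv, norm_smul, hx, hvn, hs2]
        simp
      have h2 : (0 : ℝ) ≤ ‖(starRingEnd ℂ) q • x + v‖ := norm_nonneg _
      nlinarith
    · rw [inner_add_left, inner_smul_left, inner_self_eq_norm_sq_to_K, hx]
      have : inner ℂ v x = 0 := by rw [← inner_conj_symm, hv, map_zero]
      rw [this]
      simp
  have hbd : BddAbove ((fun z => ‖p.eval z‖) '' scaledRange q A) := by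
    have hsub : scaledRange q A ⊆ Metric.closedBall 0 (‖φ A‖ / ‖q‖) := by
      rw [scaledRange_eq]
      rintro z ⟨x, y, hx, hy, _, rfl⟩
      rw [Metric.mem_closedBall, dist_zero_right, norm_div]
      gcongr
      calc ‖(inner ℂ y (φ A x) : ℂ)‖ ≤ ‖y‖ * ‖φ A x‖ := norm_inner_le_norm _ _
        _ ≤ 1 * (‖φ A‖ * ‖x‖) := by rw [hy]; gcongr; exact (φ A).le_opNorm x
        _ = ‖φ A‖ := by rw [hx]; ring
    have hc : IsCompact (Metric.closedBall (0 : ℂ) (‖φ A‖ / ‖q‖)) := isCompact_closedBall _ _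
    have hcont : Continuous fun z : ℂ => ‖p.eval z‖ := by fun_prop
    exact (hc.bddAbove_image hcont.continuousOn).mono (Set.image_mono hsub)
  refine ⟨?_, hne, hbd⟩
  set M := sSup ((fun z => ‖p.eval z‖) '' scaledRange q A) with hM
  have hle : ∀ z ∈ scaledRange q A, ‖p.eval z‖ ≤ M := fun z hz =>
    le_csSup hbd ⟨z, hz, rfl⟩
  have hM0 : 0 ≤ M := by
    obtain ⟨z, hz⟩ := hne
    exact (norm_nonneg _).trans (hle z hz)
  have hmat : φ (aeval A p) = aeval (φ A) p :=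
    (Polynomial.aeval_algHom_apply (φ.toAlgEquiv.toAlgHom) A p).symm
  have hmain := Pool.Agent.Helper324_QNR.main_bound (φ A) q hq0 hq1 hd p M hM0
    (by rw [hφ, ← scaledRange_eq]; exact hle)
  rw [← hmat] at hmain
  have hnorm : ‖aeval A p‖ = ‖φ (aeval A p)‖ := Matrix.l2_opNorm_def _
  have hcq : cq q = max 1 (2 / Pool.Agent.Helper324_QNR.kap q) := by
    rw [cq, Pool.Agent.Helper324_QNR.kap, div_div_eq_mul_div]
  rw [hnorm, hcq]
  exact hmain

end Pool.Agent.Results.MP_16d611_an.ScaledRangeBound
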